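import Mathlib
import Pool.Agent.Helper45.MalcevDefs
import Pool.Agent.H814Z.Mal.Gen

namespace Pool.Agent.Results.MP_e5a626_al.AVirtNilpotent

open Pool.Agent.Helper45

universe u v

/-- **Q1.** The monoid free product of any free monoid and any virtually nilpotent group embeds in a group
and is Malcev coherent. -/
theorem result (X : Type u) (G : Type v) [Group G]
    (hG : ∃ N : Subgroup G, N.FiniteIndex ∧ Group.IsNilpotent N) :
    (∃ (Γ : Type (max u v)) (_ : Group Γ) (f : Monoid.Coprod (FreeMonoid X) G →* Γ),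
      Function.Injective f) ∧ MalcevCoherent (Monoid.Coprod (FreeMonoid X) G) := by
  obtain ⟨N, h1, h2⟩ := hG
  exact ⟨⟨_, inferInstance, Pool.Agent.H814Z.Mal.embX X G, Pool.Agent.H814Z.Mal.embX_injective X G⟩,
    Pool.Agent.H814Z.Mal.coherent X G ⟨N, h2, h1⟩⟩

end Pool.Agent.Results.MP_e5a626_al.AVirtNilpotent
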